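import Pool.Agent.H255.BT.Defs
namespace Pool.Agent.H255.BT.B_bfam
open Pool.Agent.H255.BT
open scoped InnerProductSpace

section

variable {H : Type} [NormedAddCommGroup H] [InnerProductSpace ℂ H] [CompleteSpace H]
  {Z : Set ℂ} {A : H →L[ℂ] H}

/-- the eigenspace -/
def G (A : H →L[ℂ] H) (ζ : ℂ) : Submodule ℂ H :=
  LinearMap.ker ((A - ζ • (1 : H →L[ℂ] H) : H →L[ℂ] H) : H →ₗ[ℂ] H)

omit [CompleteSpace H] in
theorem mem_G {ζ : ℂ} {v : H} : v ∈ G A ζ ↔ A v = ζ • v := by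
  unfold G
  rw [LinearMap.mem_ker]
  simp [sub_eq_zero]

omit [CompleteSpace H] in
theorem isClosed_G (ζ : ℂ) : IsClosed ((G A ζ : Submodule ℂ H) : Set H) :=
  (A - ζ • (1 : H →L[ℂ] H)).isClosed_ker

instance (ζ : ℂ) : CompleteSpace (G A ζ) := (isClosed_G (A := A) ζ).completeSpace_coe

theorem inner_A (h : PP Z A) (v w : H) : ⟪A v, A w⟫_ℂ = ⟪v, w⟫_ℂ := by
  have h1 : (star A * A) w = w := by rw [h.iso]; rfl
  rw [ContinuousLinearMap.star_eq_adjoint] at h1
  have h2 : ⟪v, (ContinuousLinearMap.adjoint A) (A w)⟫_ℂ = ⟪A v, A w⟫_ℂ :=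
    ContinuousLinearMap.adjoint_inner_right A v (A w)
  rw [← h2]
  have h3 : (ContinuousLinearMap.adjoint A) (A w) = w := h1
  rw [h3]

theorem orth (h : PP Z A) {ζ η : ℂ} (hne : ζ ≠ η) {v w : H} (hv : A v = ζ • v)
    (hw : A w = η • w) : ⟪v, w⟫_ℂ = 0 := by
  by_contra h0
  have hv0 : ⟪v, v⟫_ℂ ≠ 0 := by
    intro h1
    rw [inner_self_eq_zero] at h1
    rw [h1, inner_zero_left] at h0
    exact h0 rfl
  have h1 := inner_A h v v
  rw [hv, inner_smul_left, inner_smul_right] at h1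
  have h2 := inner_A h v w
  rw [hv, hw, inner_smul_left, inner_smul_right] at h2
  have h3 : (starRingEnd ℂ) ζ * ζ = 1 := by
    have : ((starRingEnd ℂ) ζ * ζ - 1) * ⟪v, v⟫_ℂ = 0 := by
      linear_combination h1
    rcases mul_eq_zero.mp this with h4 | h4
    · exact sub_eq_zero.mp h4
    · exact absurd h4 hv0
  have h4 : (starRingEnd ℂ) ζ * η = 1 := by
    have : ((starRingEnd ℂ) ζ * η - 1) * ⟪v, w⟫_ℂ = 0 := by
      linear_combination h2
    rcases mul_eq_zero.mp this with h5 | h5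
    · exact sub_eq_zero.mp h5
    · exact absurd h5 h0
  apply hne
  have h5 : (starRingEnd ℂ) ζ ≠ 0 := by
    intro h6
    rw [h6, zero_mul] at h3
    exact zero_ne_one h3
  exact mul_left_cancel₀ h5 (h3.trans h4.symm)

theorem orthF (h : PP Z A) (u : Z → ℂ) (hu : ∀ ζ, ‖u ζ‖ = 1) :
    ∃ V : (ζ : Z) → G A (ζ : ℂ) →ₗᵢ[ℂ] H, (∀ (ζ : Z) (v : G A (ζ : ℂ)), V ζ v = u ζ • (v : H)) ∧
      OrthogonalFamily ℂ (fun ζ : Z => G A (ζ : ℂ)) V := by
  refine ⟨fun ζ => ⟨u ζ • (G A (ζ : ℂ)).subtype, ?_⟩, ?_, ?_⟩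
  · intro v
    change ‖u ζ • (v : H)‖ = ‖v‖
    rw [norm_smul, hu, one_mul]
    rfl
  · intro ζ v
    rfl
  · intro ζ η hne v w
    change ⟪u ζ • (v : H), u η • (w : H)⟫_ℂ = 0
    rw [inner_smul_left, inner_smul_right,
      orth h (fun h1 => hne (Subtype.ext h1)) (mem_G.mp v.2) (mem_G.mp w.2)]
    simp

theorem hsum (h : PP Z A) : IsHilbertSum ℂ (fun ζ : Z => G A (ζ : ℂ))
    (fun ζ => (G A (ζ : ℂ)).subtypeₗᵢ) := by
  refine IsHilbertSum.mkInternal (F := fun ζ : Z => G A (ζ : ℂ)) ?_ ?_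
  · intro ζ η hne v w
    exact orth h (fun h1 => hne (Subtype.ext h1)) (mem_G.mp v.2) (mem_G.mp w.2)
  · rw [top_le_iff, Submodule.topologicalClosure_eq_top_iff, Submodule.eq_bot_iff]
    intro v hv
    apply h.tot v
    intro ζ hζ w hw
    rw [Submodule.mem_orthogonal] at hv
    exact hv w ((le_iSup (fun ζ : Z => G A (ζ : ℂ)) ⟨ζ, hζ⟩) (mem_G.mpr hw))

theorem exB (h : PP Z A) (u : ℂ → ℂ) (hu : ∀ ζ ∈ Z, ‖u ζ‖ = 1) :
    ∃ B : H →ₗᵢ[ℂ] H, ∀ ζ ∈ Z, ∀ v : H, A v = ζ • v → B v = u ζ • v := by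
  classical
  obtain ⟨V, hV, hO⟩ := orthF h (fun ζ => u ζ) (fun ζ => hu ζ ζ.2)
  refine ⟨hO.linearIsometry.comp (hsum h).linearIsometryEquiv.toLinearIsometry, ?_⟩
  intro ζ hζ v hv
  have h1 : (hsum h).linearIsometryEquiv v =
      lp.single 2 (⟨ζ, hζ⟩ : Z) (⟨v, mem_G.mpr hv⟩ : G A ζ) := by
    have h2 : (hsum h).linearIsometryEquiv.symm
        (lp.single 2 (⟨ζ, hζ⟩ : Z) (⟨v, mem_G.mpr hv⟩ : G A ζ)) = v := by
      rw [IsHilbertSum.linearIsometryEquiv_symm_apply_single]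
      rfl
    have h3 := congrArg (hsum h).linearIsometryEquiv h2
    rw [LinearIsometryEquiv.apply_symm_apply] at h3
    exact h3.symm
  change hO.linearIsometry ((hsum h).linearIsometryEquiv v) = _
  rw [h1, OrthogonalFamily.linearIsometry_apply_single, hV]

theorem ext (h : PP Z A) {S T : H →L[ℂ] H}
    (hST : ∀ ζ ∈ Z, ∀ v : H, A v = ζ • v → S v = T v) : S = T := by
  have h1 : ContinuousLinearMap.adjoint (S - T) = 0 := by
    ext x
    change (ContinuousLinearMap.adjoint (S - T)) x = 0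
    apply h.tot
    intro ζ hζ w hw
    rw [ContinuousLinearMap.adjoint_inner_right]
    change ⟪S w - T w, x⟫_ℂ = 0
    rw [hST ζ hζ w hw, sub_self, inner_zero_left]
  have h2 : S - T = 0 := by
    have h3 := ContinuousLinearMap.adjoint_adjoint (S - T)
    rw [h1] at h3
    rw [← h3]
    simp
  exact sub_eq_zero.mp h2

end

theorem r : S_bfam := by
  intro H _ _ _ Z A h θ hθ
  have h0 : ∀ ζ ∈ Z, θ ζ ≠ 0 := by
    intro ζ hζ h1
    have h2 := hθ ζ hζ
    rw [h1, norm_zero] at h2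
    exact zero_ne_one h2
  have h1 : ∀ j : ℤ, ∃ B : H →ₗᵢ[ℂ] H, ∀ ζ ∈ Z, ∀ v : H, A v = ζ • v → B v = θ ζ ^ j • v := by
    intro j
    refine exB h (fun ζ => θ ζ ^ j) ?_
    intro ζ hζ
    rw [norm_zpow, hθ ζ hζ, one_zpow]
  choose B hB using h1
  have hzero : (B 0).toContinuousLinearMap = 1 := by
    apply ext h
    intro ζ hζ v hv
    change B 0 v = v
    rw [hB 0 ζ hζ v hv, zpow_zero, one_smul]
  have hadd : ∀ i j : ℤ, (B (i + j)).toContinuousLinearMap =
      (B i).toContinuousLinearMap * (B j).toContinuousLinearMap := by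
    intro i j
    apply ext h
    intro ζ hζ v hv
    change B (i + j) v = B i (B j v)
    rw [hB _ ζ hζ v hv, hB j ζ hζ v hv, map_smul, hB i ζ hζ v hv, smul_smul,
      zpow_add₀ (h0 ζ hζ), mul_comm]
  refine ⟨fun j => (B j).toContinuousLinearMap, ?_, hzero, hadd, ?_⟩
  · intro ζ hζ v hv j
    exact hB j ζ hζ v hv
  · intro j
    change star (B j).toContinuousLinearMap = (B (-j)).toContinuousLinearMap
    have h2 : star (B j).toContinuousLinearMap * (B j).toContinuousLinearMap = 1 := by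
      ext x
      refine ext_inner_left ℂ ?_
      intro y
      change ⟪y, (ContinuousLinearMap.adjoint (B j).toContinuousLinearMap) (B j x)⟫_ℂ = ⟪y, x⟫_ℂ
      rw [ContinuousLinearMap.adjoint_inner_right]
      exact (B j).inner_map_map y x
    have h3 : (B j).toContinuousLinearMap * (B (-j)).toContinuousLinearMap = 1 := by
      rw [← hadd, add_neg_cancel, hzero]
    calc star (B j).toContinuousLinearMap
        = star (B j).toContinuousLinearMap *
          ((B j).toContinuousLinearMap * (B (-j)).toContinuousLinearMap) := by rw [h3, mul_one]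
      _ = (B (-j)).toContinuousLinearMap := by rw [← mul_assoc, h2, one_mul]

end Pool.Agent.H255.BT.B_bfam
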