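import Pool.Agent.H255.BT.Defs

/-!
Britton's lemma for the presented group (proof of `S_brit`), helper134 for helper255.
-/

set_option autoImplicit false

namespace Pool.Agent.H255.BT.B_brit
open Pool.Agent.H255.BT
open Multiplicative

/-- the base group -/
abbrev Z1 : Type := Multiplicative ℤ

/-- `k ↦ m k` -/
def pw (m : ℤ) : Z1 →* Z1 := zpowersHom Z1 (ofAdd m)

theorem pw_apply (m : ℤ) (k : Z1) : pw m k = ofAdd (toAdd k * m) := by
  unfold pw
  rw [zpowersHom_apply, ← ofAdd_zsmul, smul_eq_mul]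

theorem pw_inj {m : ℤ} (hm : m ≠ 0) : Function.Injective (pw m) := by
  intro x y h
  rw [pw_apply, pw_apply] at h
  have h1 := ofAdd.injective h
  exact toAdd.injective (mul_right_cancel₀ hm h1)

/-- the subgroup of the multiples of `m` -/
abbrev SB (m : ℤ) : Subgroup Z1 := (pw m).range

theorem mem_SB {m k : ℤ} (h : ofAdd k ∈ SB m) : m ∣ k := by
  obtain ⟨x, hx⟩ := h
  rw [pw_apply] at hx
  have h1 := ofAdd.injective hx
  exact ⟨toAdd x, by rw [← h1, mul_comm]⟩

/-- the isomorphism `m k ↦ n k` -/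
noncomputable def phi {m n : ℤ} (hm : m ≠ 0) (hn : n ≠ 0) : SB m ≃* SB n :=
  (MonoidHom.ofInjective (pw_inj hm)).symm.trans (MonoidHom.ofInjective (pw_inj hn))

theorem phi_apply {m n : ℤ} (hm : m ≠ 0) (hn : n ≠ 0) (h : ofAdd m ∈ SB m) :
    ((phi hm hn ⟨ofAdd m, h⟩ : SB n) : Z1) = ofAdd n := by
  have h1 : (⟨ofAdd m, h⟩ : SB m) = MonoidHom.ofInjective (pw_inj hm) (ofAdd 1) := by
    apply Subtype.ext
    rw [MonoidHom.ofInjective_apply, pw_apply]
    simp
  unfold phi
  rw [MulEquiv.trans_apply, h1, MulEquiv.symm_apply_apply, MonoidHom.ofInjective_apply, pw_apply]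
  simp

theorem mem_self (m : ℤ) : ofAdd m ∈ SB m := ⟨ofAdd 1, by rw [pw_apply]; simp⟩

/-- the HNN extension -/
abbrev HN {m n : ℤ} (hm : m ≠ 0) (hn : n ≠ 0) : Type := HNNExtension Z1 (SB m) (SB n) (phi hm hn)

theorem of_pow {m n : ℤ} (hm : m ≠ 0) (hn : n ≠ 0) (k : ℤ) :
    ((HNNExtension.of (ofAdd 1) : HN hm hn)) ^ k = HNNExtension.of (ofAdd k) := by
  rw [← map_zpow, ← ofAdd_zsmul, smul_eq_mul, mul_one]

/-- the images of the generators -/
noncomputable def gn {m n : ℤ} (hm : m ≠ 0) (hn : n ≠ 0) : Bool → HN hm hn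
  | false => HNNExtension.of (ofAdd 1)
  | true => HNNExtension.t

theorem rel_one {m n : ℤ} (hm : m ≠ 0) (hn : n ≠ 0) :
    ∀ r ∈ rels m n, FreeGroup.lift (gn hm hn) r = 1 := by
  intro r hr
  unfold rels at hr
  rw [Set.mem_singleton_iff] at hr
  rw [hr, map_mul, map_mul, map_mul, map_inv, map_inv, map_zpow, map_zpow, FreeGroup.lift_apply_of,
    FreeGroup.lift_apply_of]
  show HNNExtension.t * (HNNExtension.of (ofAdd 1) : HN hm hn) ^ m * HNNExtension.t⁻¹ *
    ((HNNExtension.of (ofAdd 1) : HN hm hn) ^ n)⁻¹ = 1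
  rw [of_pow, of_pow]
  have h := HNNExtension.t_mul_of (φ := phi hm hn) ⟨ofAdd m, mem_self m⟩
  rw [phi_apply] at h
  rw [h]
  simp

/-- the homomorphism -/
noncomputable def ff {m n : ℤ} (hm : m ≠ 0) (hn : n ≠ 0) : BSG m n →* HN hm hn :=
  PresentedGroup.toGroup (rel_one hm hn)

theorem ff_ga {m n : ℤ} (hm : m ≠ 0) (hn : n ≠ 0) :
    ff hm hn (ga m n) = HNNExtension.of (ofAdd 1) := by
  unfold ff ga
  rw [PresentedGroup.toGroup.of]
  rfl

theorem ff_gt {m n : ℤ} (hm : m ≠ 0) (hn : n ≠ 0) : ff hm hn (gt m n) = HNNExtension.t := by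
  unfold ff gt
  rw [PresentedGroup.toGroup.of]
  rfl

/-- the letters of the reduced word -/
def lt (x : Bool × ℤ) : ℤˣ × Z1 := (if x.1 then 1 else -1, ofAdd x.2)

theorem ff_wd {m n : ℤ} (hm : m ≠ 0) (hn : n ≠ 0) (L : List (Bool × ℤ)) :
    ff hm hn (wd (ga m n) (gt m n) L) =
      ((L.map lt).map (fun x => (HNNExtension.t : HN hm hn) ^ (x.1 : ℤ) *
        HNNExtension.of x.2)).prod := by
  induction L with
  | nil => simp [wd]
  | cons x L ih =>
    rw [wd, map_mul, map_mul, ih, map_zpow, ff_ga, of_pow, List.map_cons, List.map_cons,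
      List.prod_cons]
    congr 2
    unfold tp lt
    cases x.1 with
    | true => simp [ff_gt]
    | false => simp [ff_gt]

theorem chain_of_red {m n : ℤ} : ∀ L : List (Bool × ℤ), Red m n L →
    (L.map lt).IsChain (fun a b => a.2 ∈ HNNExtension.toSubgroup (SB m) (SB n) a.1 → a.1 = b.1)
  | [], _ => List.isChain_nil
  | [x], _ => List.isChain_singleton _
  | x :: y :: L, h => by
    obtain ⟨h1, h2, h3⟩ := h
    rw [List.map_cons, List.map_cons, List.isChain_cons_cons]
    refine ⟨?_, chain_of_red (y :: L) h3⟩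
    obtain ⟨e, k⟩ := x
    obtain ⟨e', k'⟩ := y
    intro hmem
    cases e with
    | true =>
      cases e' with
      | true => rfl
      | false => exact absurd (mem_SB hmem) (h1 rfl rfl)
    | false =>
      cases e' with
      | false => rfl
      | true => exact absurd (mem_SB hmem) (h2 rfl rfl)

theorem r : S_brit := by
  intro m n hm hn L hL hred hmem
  obtain ⟨k, hk⟩ := Subgroup.mem_zpowers_iff.1 hmem
  have h1 : ff hm hn (wd (ga m n) (gt m n) L) = HNNExtension.of (ofAdd k) := by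
    rw [← hk, map_zpow, ff_ga, of_pow]
  rw [ff_wd] at h1
  have h2 := HNNExtension.ReducedWord.toList_eq_nil_of_mem_of_range (φ := phi hm hn)
    ({ head := 1, toList := L.map lt, chain := chain_of_red L hred } :
      HNNExtension.NormalWord.ReducedWord Z1 (SB m) (SB n)) (by
      refine ⟨ofAdd k, ?_⟩
      unfold HNNExtension.NormalWord.ReducedWord.prod
      rw [map_one, one_mul]
      exact h1.symm)
  apply hL
  exact List.map_eq_nil_iff.1 h2

end Pool.Agent.H255.BT.B_brit
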