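import Pool.Agent.H255.BT.Defs

/-!
# B8: the matrix coefficients
-/

set_option autoImplicit false

open scoped InnerProductSpace

namespace Pool.Agent.H255.BT.B_coef
open Pool.Agent.H255.BT

theorem red_tail {m n : ℤ} {x : Bool × ℤ} {M : List (Bool × ℤ)} (h : Red m n (x :: M)) :
    Red m n M := by
  cases M with
  | nil => trivial
  | cons y L => exact h.2.2

/-- the vectors of the reduced words with the given signs -/
def SS {H : Type} [NormedAddCommGroup H] [InnerProductSpace ℂ H] [CompleteSpace H]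
    {Γ : Type} [Group Γ] (m n : ℤ) (a t : Γ) (ρ : Γ →* (H →L[ℂ] H)) (δ : H)
    (L : List (Bool × ℤ)) : Set H :=
  {v | ∃ L' : List (Bool × ℤ), Red m n L' ∧ L'.map Prod.fst = L.map Prod.fst ∧
    v = ρ (wd a t L') δ}

theorem if_eq {H : Type} [NormedAddCommGroup H] [InnerProductSpace ℂ H] [CompleteSpace H]
    {Γ : Type} [Group Γ] (t : Γ) (ρ : Γ →* (H →L[ℂ] H)) (hs : ∀ g : Γ, star (ρ g) = ρ g⁻¹)
    (e : Bool) : (if e then ρ t else star (ρ t)) = ρ (tp t e) := by
  unfold tp
  cases e
  · simp [hs]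
  · simp

theorem claim {H : Type} [NormedAddCommGroup H] [InnerProductSpace ℂ H] [CompleteSpace H]
    {m n : ℕ} {Γ : Type} [Group Γ] {a t : Γ} (hD : BSD Γ m n a t)
    (ρ : Γ →* (H →L[ℂ] H)) (δ : H) (hs : ∀ g : Γ, star (ρ g) = ρ g⁻¹)
    (hfix : ∀ g : Γ, g ∈ Subgroup.zpowers a → ρ g δ = δ) (B : ℤ → H →L[ℂ] H)
    (hB : ∀ j : ℤ, B j δ = δ) (hE : Expd m n (ρ a) B) :
    ∀ L : List (Bool × ℤ), Red m n L →
      vec B (ρ t) δ L ∈ Submodule.span ℂ (SS (m : ℤ) (n : ℤ) a t ρ δ L) := by
  intro L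
  induction L with
  | nil =>
    intro _
    refine Submodule.subset_span ⟨[], trivial, rfl, ?_⟩
    show δ = ρ (wd a t []) δ
    show δ = ρ 1 δ
    rw [map_one]
    rfl
  | cons x M ih =>
    intro hred
    obtain ⟨e, k⟩ := x
    have hv := ih (red_tail hred)
    have e1 : vec B (ρ t) δ ((e, k) :: M) = ρ (tp t e) (B k (vec B (ρ t) δ M)) := by
      show (if e then ρ t else star (ρ t)) (B k (vec B (ρ t) δ M)) = _
      rw [if_eq t ρ hs e]
    rw [e1]
    have key : ∀ u ∈ SS (m : ℤ) (n : ℤ) a t ρ δ M,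
        ((ρ (tp t e)).toLinearMap ∘ₗ (B k).toLinearMap) u ∈
          Submodule.span ℂ (SS (m : ℤ) (n : ℤ) a t ρ δ ((e, k) :: M)) := by
      rintro u ⟨M', hM'red, hM'map, rfl⟩
      show ρ (tp t e) (B k (ρ (wd a t M') δ)) ∈ _
      cases M with
      | nil =>
        have hM' : M' = [] := by
          simpa using hM'map
        subst hM'
        have e2 : ρ (wd a t []) δ = δ := by
          show ρ 1 δ = δ
          rw [map_one]
          rfl
        rw [e2, hB k]
        refine Submodule.subset_span ⟨[(e, k)], trivial, rfl, ?_⟩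
        show ρ (tp t e) δ = ρ (tp t e * a ^ k * 1) δ
        rw [mul_one, map_mul]
        show ρ (tp t e) δ = ρ (tp t e) (ρ (a ^ k) δ)
        rw [hfix (a ^ k) (Subgroup.mem_zpowers_iff.2 ⟨k, rfl⟩)]
      | cons y M2 =>
        obtain ⟨y', M2', rfl⟩ : ∃ y' M2', M' = y' :: M2' := by
          cases M' with
          | nil => simp at hM'map
          | cons y' M2' => exact ⟨y', M2', rfl⟩
        have hy : y'.1 = y.1 := by
          simp only [List.map_cons, List.cons.injEq] at hM'map
          exact hM'map.1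
        obtain ⟨l, hl, hord⟩ := hD.ord (wd a t (y' :: M2'))
        rw [Int.natAbs_natCast, Int.natAbs_natCast] at hord
        have hfixu : ((ρ a) ^ (NN m n l)) (ρ (wd a t (y' :: M2')) δ)
            = ρ (wd a t (y' :: M2')) δ := by
          have h1 := hfix _ hord
          have h2 : a ^ (NN m n l) * wd a t (y' :: M2') = wd a t (y' :: M2') *
              ((wd a t (y' :: M2'))⁻¹ * a ^ (NN m n l) * wd a t (y' :: M2')) := by
            group
          calc ((ρ a) ^ (NN m n l)) (ρ (wd a t (y' :: M2')) δ)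
              = ρ (a ^ (NN m n l) * wd a t (y' :: M2')) δ := by
                rw [map_mul, map_pow]; rfl
            _ = ρ (wd a t (y' :: M2') *
              ((wd a t (y' :: M2'))⁻¹ * a ^ (NN m n l) * wd a t (y' :: M2'))) δ := by rw [← h2]
            _ = ρ (wd a t (y' :: M2'))
              (ρ ((wd a t (y' :: M2'))⁻¹ * a ^ (NN m n l) * wd a t (y' :: M2')) δ) := by
                rw [map_mul ρ (wd a t (y' :: M2'))]; rfl
            _ = ρ (wd a t (y' :: M2')) δ := by rw [h1]
        have hexp := hE l (ρ (wd a t (y' :: M2')) δ) hl hfixu k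
        have key2 : ∀ w ∈ {w : H | ∃ i : ℕ, w = ((ρ a) ^ i) (ρ (wd a t (y' :: M2')) δ) ∧
            ((m : ℤ) ∣ (i : ℤ) → (m : ℤ) ∣ k) ∧ ((n : ℤ) ∣ (i : ℤ) → (n : ℤ) ∣ k)},
            (ρ (tp t e)).toLinearMap w ∈
              Submodule.span ℂ (SS (m : ℤ) (n : ℤ) a t ρ δ ((e, k) :: y :: M2)) := by
          rintro w ⟨i, rfl, hi1, hi2⟩
          refine Submodule.subset_span ⟨(e, (i : ℤ)) :: y' :: M2', ?_, ?_, ?_⟩
          · refine ⟨?_, ?_, hM'red⟩
            · intro h1 h2 h3
              exact hred.1 h1 (by rw [← hy]; exact h2) (hi1 h3)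
            · intro h1 h2 h3
              exact hred.2.1 h1 (by rw [← hy]; exact h2) (hi2 h3)
          · simp only [List.map_cons] at hM'map ⊢
            rw [hM'map]
          · show ρ (tp t e) (((ρ a) ^ i) (ρ (wd a t (y' :: M2')) δ))
              = ρ (tp t e * a ^ (i : ℤ) * wd a t (y' :: M2')) δ
            rw [map_mul, map_mul, zpow_natCast, map_pow]
            rfl
        have h3 := (Submodule.map_span_le (ρ (tp t e)).toLinearMap _ _).2 key2
        exact h3 (Submodule.mem_map_of_mem hexp)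
    have h4 := (Submodule.map_span_le ((ρ (tp t e)).toLinearMap ∘ₗ (B k).toLinearMap) _ _).2 key
    exact h4 (Submodule.mem_map_of_mem hv)

theorem r : S_coef := by
  intro H _ _ _ m n hm hn Γ _ a t hD ρ δ hs hfix horth B hB hE L hL hred
  have hv := claim hD ρ δ hs hfix B hB hE L hred
  have h0 : ∀ v ∈ Submodule.span ℂ (SS (m : ℤ) (n : ℤ) a t ρ δ L), ⟪δ, v⟫_ℂ = 0 := by
    intro v hv
    induction hv using Submodule.span_induction with
    | mem x hx =>
      obtain ⟨L', hred', hmap, rfl⟩ := hx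
      apply horth
      apply hD.brit L' _ hred'
      intro h
      rw [h] at hmap
      simp only [List.map_nil] at hmap
      exact hL (List.map_eq_nil_iff.1 hmap.symm)
    | zero => exact inner_zero_right _
    | add x y _ _ hx hy => rw [inner_add_right, hx, hy, add_zero]
    | smul c x _ hx => rw [inner_smul_right, hx, mul_zero]
  exact h0 _ hv

end Pool.Agent.H255.BT.B_coef
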