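import Pool.Agent.H255.BT.Defs

set_option autoImplicit false

open scoped InnerProductSpace

namespace Pool.Agent.H255.BT.B_gns
open Pool.Agent.H255.BT

theorem dl_eq {ι : Type} [inst : DecidableEq ι] (x : ι) :
    (dl x : L2 ι) = lp.single 2 x (1 : ℂ) := by
  have h : inst = (fun a b => Classical.propDecidable (a = b)) := Subsingleton.elim _ _
  subst h
  rfl

theorem r : S_gns := by
  classical
  intro H _ _ _ Γ _ Λ ρ δ hstar hn hfix horth htot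
  have hmul : ∀ (g h : Γ) (v : H), ρ g (ρ h v) = ρ (g * h) v := by
    intro g h v
    rw [map_mul]; rfl
  have hin : ∀ (g h : Γ), ⟪ρ g δ, ρ h δ⟫_ℂ = ⟪δ, ρ (g⁻¹ * h) δ⟫_ℂ := by
    intro g h
    have h1 : ⟪ρ g δ, ρ h δ⟫_ℂ = ⟪δ, (star (ρ g)) (ρ h δ)⟫_ℂ := by
      rw [ContinuousLinearMap.star_eq_adjoint, ContinuousLinearMap.adjoint_inner_right]
    rw [h1, hstar, hmul]
  have hwd : ∀ g h : Γ, g⁻¹ * h ∈ Λ → ρ g δ = ρ h δ := by
    intro g h hgh
    have h1 : ρ g (ρ (g⁻¹ * h) δ) = ρ g δ := by rw [hfix _ hgh]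
    rw [hmul, mul_inv_cancel_left] at h1
    exact h1.symm
  let w : Γ ⧸ Λ → H := fun x => ρ x.out δ
  have hw : ∀ g : Γ, w (g : Γ ⧸ Λ) = ρ g δ := by
    intro g
    apply hwd
    have h2 : ((Quotient.out (g : Γ ⧸ Λ) : Γ) : Γ ⧸ Λ) = (g : Γ ⧸ Λ) := QuotientGroup.out_eq' _
    exact QuotientGroup.eq.mp h2
  have hon : Orthonormal ℂ w := by
    constructor
    · intro x
      have h1 : ⟪w x, w x⟫_ℂ = ⟪δ, δ⟫_ℂ := by
        show ⟪ρ x.out δ, ρ x.out δ⟫_ℂ = _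
        rw [hin, inv_mul_cancel, map_one]
        rfl
      rw [inner_self_eq_norm_sq_to_K, inner_self_eq_norm_sq_to_K, hn] at h1
      have h2 : ‖w x‖ ^ 2 = 1 := by
        have h3 : ((‖w x‖ ^ 2 : ℝ) : ℂ) = ((1 : ℝ) : ℂ) := by
          push_cast
          simpa using h1
        exact_mod_cast h3
      have h4 : (0 : ℝ) ≤ ‖w x‖ := norm_nonneg _
      nlinarith
    · intro x y hxy
      show ⟪ρ x.out δ, ρ y.out δ⟫_ℂ = 0
      rw [hin]
      apply horth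
      intro hmem
      apply hxy
      have h3 : ((x.out : Γ) : Γ ⧸ Λ) = ((y.out : Γ) : Γ ⧸ Λ) := QuotientGroup.eq.mpr hmem
      rw [QuotientGroup.out_eq', QuotientGroup.out_eq'] at h3
      exact h3
  have hbot : (Submodule.span ℂ (Set.range w))ᗮ = ⊥ := by
    rw [Submodule.eq_bot_iff]
    intro v hv
    apply htot
    intro g
    rw [← hw g]
    exact (Submodule.mem_orthogonal _ v).mp hv _ (Submodule.subset_span ⟨_, rfl⟩)
  let b : HilbertBasis (Γ ⧸ Λ) ℂ H := HilbertBasis.mkOfOrthogonalEqBot hon hbot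
  refine ⟨b.repr.symm, ?_⟩
  intro g
  have h5 : b.repr.symm (lp.single 2 (g : Γ ⧸ Λ) (1 : ℂ)) = b (g : Γ ⧸ Λ) :=
    b.repr_symm_single (g : Γ ⧸ Λ)
  have h6 : b (g : Γ ⧸ Λ) = w (g : Γ ⧸ Λ) := by
    have := HilbertBasis.coe_mkOfOrthogonalEqBot hon hbot
    exact congrFun this _
  rw [← hw g, ← h6, ← h5, dl_eq]

end Pool.Agent.H255.BT.B_gns
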