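import Pool.Agent.H255.BT.Nn

/-!
The quasi-regular representation, and eigenvectors.
-/

set_option autoImplicit false

open Filter Topology Complex
open scoped InnerProductSpace

namespace Pool.Agent.H255.BT.B_qreg

open Pool.Agent.H255.BT

section basis

variable {ι : Type}

theorem inner_dl (x : ι) (v : L2 ι) : ⟪dl x, v⟫_ℂ = v x := by
  classical
  unfold dl
  rw [lp.inner_single_left]
  simp

theorem norm_dl (x : ι) : ‖(dl x : L2 ι)‖ = 1 := by
  classical
  unfold dl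
  rw [lp.norm_single (by norm_num)]
  simp

theorem orth_dl {x y : ι} (h : x ≠ y) : ⟪(dl x : L2 ι), dl y⟫_ℂ = 0 := by
  classical
  rw [inner_dl]
  unfold dl
  exact lp.single_apply_ne _ _ _ h

theorem total_dl (v : L2 ι) (h : ∀ x : ι, ⟪dl x, v⟫_ℂ = 0) : v = 0 := by
  apply lp.ext
  funext x
  have := h x
  rw [inner_dl] at this
  simpa using this

theorem orthonormal_perm (e : Equiv.Perm ι) :
    Orthonormal ℂ (fun x => (dl (e x) : L2 ι)) := by
  refine ⟨fun x => norm_dl _, fun x y hxy => ?_⟩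
  exact orth_dl fun h => hxy (e.injective h)

theorem orthogonal_perm (e : Equiv.Perm ι) :
    (Submodule.span ℂ (Set.range (fun x => (dl (e x) : L2 ι))))ᗮ = ⊥ := by
  rw [Submodule.eq_bot_iff]
  intro v hv
  apply total_dl
  intro x
  have h1 := (Submodule.mem_orthogonal _ _).1 hv (dl (e (e.symm x)))
    (Submodule.subset_span ⟨e.symm x, rfl⟩)
  rwa [Equiv.apply_symm_apply] at h1

/-- the Hilbert basis -/
noncomputable def hb (e : Equiv.Perm ι) : HilbertBasis ι ℂ (L2 ι) :=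
  HilbertBasis.mkOfOrthogonalEqBot (orthonormal_perm e) (orthogonal_perm e)

theorem hb_apply (e : Equiv.Perm ι) (x : ι) : hb e x = dl (e x) := by
  unfold hb
  rw [HilbertBasis.coe_mkOfOrthogonalEqBot]

/-- the unitary of a permutation -/
noncomputable def ue (e : Equiv.Perm ι) : L2 ι ≃ₗᵢ[ℂ] L2 ι := (hb e).repr.symm

theorem ue_dl (e : Equiv.Perm ι) (x : ι) : ue e (dl x) = dl (e x) := by
  have h1 : (hb e).repr.symm (dl x) = hb e x := by
    unfold dl
    exact @HilbertBasis.repr_symm_single ι ℂ _ (L2 ι) _ _ (fun a b => Classical.propDecidable (a = b)) (hb e) x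
  rw [hb_apply] at h1
  exact h1

theorem ext_dl (S S' : L2 ι →L[ℂ] L2 ι) (h : ∀ x : ι, S (dl x) = S' (dl x)) : S = S' := by
  have h1 := (hb (1 : Equiv.Perm ι)).dense_span
  refine ContinuousLinearMap.ext_on (s := Set.range (hb (1 : Equiv.Perm ι)))
    (Submodule.dense_iff_topologicalClosure_eq_top.2 h1) ?_
  rintro _ ⟨x, rfl⟩
  rw [hb_apply]
  exact h _

/-- the operator of a permutation -/
noncomputable def op (e : Equiv.Perm ι) : L2 ι →L[ℂ] L2 ι :=
  (ue e).toContinuousLinearEquiv.toContinuousLinearMap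

theorem op_dl (e : Equiv.Perm ι) (x : ι) : op e (dl x) = dl (e x) := ue_dl e x

theorem op_mul (e f : Equiv.Perm ι) : op (e * f) = op e * op f := by
  apply ext_dl
  intro x
  show op (e * f) (dl x) = op e (op f (dl x))
  rw [op_dl, op_dl, op_dl]
  rfl

theorem op_one : op (1 : Equiv.Perm ι) = 1 := by
  apply ext_dl
  intro x
  rw [op_dl]
  rfl

theorem star_op (e : Equiv.Perm ι) : star (op e) = op e⁻¹ := by
  have h1 : star (op e) * op e = 1 := by
    have h2 := (ContinuousLinearMap.norm_map_iff_adjoint_comp_self (op e)).1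
      (fun v => (ue e).norm_map v)
    rw [ContinuousLinearMap.star_eq_adjoint]
    exact h2
  have h3 : op e * op e⁻¹ = 1 := by
    rw [← op_mul, mul_inv_cancel, op_one]
  calc star (op e) = star (op e) * (op e * op e⁻¹) := by rw [h3, mul_one]
    _ = op e⁻¹ := by rw [← mul_assoc, h1, one_mul]

end basis

theorem r : S_qreg := by
  intro Γ _ Λ
  refine ⟨⟨{
      toFun := fun g => op (MulAction.toPermHom Γ (Γ ⧸ Λ) g)
      map_one' := ?_
      map_mul' := fun g h => ?_ }, fun g => ?_,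
    fun g x => ?_⟩, norm_dl, fun x y h => orth_dl h, total_dl, ext_dl⟩
  · rw [map_one, op_one]
  · rw [map_mul, op_mul]
  · show star (op (MulAction.toPermHom Γ (Γ ⧸ Λ) g)) = op (MulAction.toPermHom Γ (Γ ⧸ Λ) g⁻¹)
    rw [star_op, map_inv]
  · exact op_dl _ x

theorem r2 : S_tot := by
  intro m n hm hn H _ _ _ A h1 h2 htot
  refine ⟨h1, h2, fun v hv => htot v fun k u hu => ?_⟩
  obtain ⟨q, hq⟩ : ∃ q : ℕ, q = NN m n k := ⟨_, rfl⟩
  rw [← hq] at hu
  have hq0 : q ≠ 0 := by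
    rw [hq]
    exact (NN_pos hm hn k).ne'
  have hω : IsPrimitiveRoot (Complex.exp (2 * Real.pi * I / q)) q :=
    Complex.isPrimitiveRoot_exp q hq0
  obtain ⟨ω, hω'⟩ : ∃ ω : ℂ, ω = Complex.exp (2 * Real.pi * I / q) := ⟨_, rfl⟩
  rw [← hω'] at hω
  have hω0 : ω ≠ 0 := hω.ne_zero hq0
  have hωq : ω ^ q = 1 := hω.pow_eq_one
  -- the components
  obtain ⟨w, hw⟩ : ∃ w : ℕ → H, ∀ j, w j =
      (q : ℂ)⁻¹ • ∑ i ∈ Finset.range q, (((ω ^ j)⁻¹) ^ i) • (A ^ i) u := ⟨_, fun _ => rfl⟩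
  have hz : ∀ j, (ω ^ j) ^ q = 1 := fun j => by
    rw [← pow_mul, mul_comm, pow_mul, hωq, one_pow]
  have hAw : ∀ j, A (w j) = (ω ^ j) • w j := by
    intro j
    have hz0 : ω ^ j ≠ 0 := pow_ne_zero _ hω0
    rw [hw, map_smul, map_sum, smul_comm]
    congr 1
    have e1 : ∀ i, A ((((ω ^ j)⁻¹) ^ i) • (A ^ i) u) =
        (ω ^ j) • ((((ω ^ j)⁻¹) ^ (i + 1)) • (A ^ (i + 1)) u) := by
      intro i
      have e0 : (A ^ (i + 1)) u = A ((A ^ i) u) := by
        rw [pow_succ' A i]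
        rfl
      rw [map_smul, e0, smul_smul, pow_succ']
      congr 1
      field_simp
    rw [Finset.sum_congr rfl fun i _ => e1 i, ← Finset.smul_sum]
    congr 1
    have e2 := Finset.sum_range_succ' (fun i => (((ω ^ j)⁻¹) ^ i) • (A ^ i) u) q
    rw [Finset.sum_range_succ] at e2
    have e3 : (((ω ^ j)⁻¹) ^ q) • (A ^ q) u = (((ω ^ j)⁻¹) ^ 0) • (A ^ 0) u := by
      rw [hu, inv_pow, hz, pow_zero, pow_zero, inv_one]
      rfl
    rw [e3] at e2
    exact (add_right_cancel e2).symm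
  have hsum : u = ∑ j ∈ Finset.range q, w j := by
    have e1 : ∑ j ∈ Finset.range q, w j = (q : ℂ)⁻¹ • ∑ i ∈ Finset.range q,
        (∑ j ∈ Finset.range q, ((ω ^ j)⁻¹) ^ i) • (A ^ i) u := by
      rw [Finset.sum_congr rfl fun j _ => hw j, ← Finset.smul_sum, Finset.sum_comm]
      congr 1
      refine Finset.sum_congr rfl fun i _ => ?_
      rw [Finset.sum_smul]
    have e2 : ∀ i ∈ Finset.range q, i ≠ 0 →
        (∑ j ∈ Finset.range q, ((ω ^ j)⁻¹) ^ i) • (A ^ i) u = 0 := by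
      intro i hi hi0
      rw [Finset.mem_range] at hi
      have e3 : ∑ j ∈ Finset.range q, ((ω ^ j)⁻¹) ^ i =
          ∑ j ∈ Finset.range q, ((ω ^ i)⁻¹) ^ j := by
        refine Finset.sum_congr rfl fun j _ => ?_
        rw [inv_pow, inv_pow, ← pow_mul, ← pow_mul, mul_comm]
      have e4 := mul_geom_sum ((ω ^ i)⁻¹) q
      have e5 : ((ω ^ i)⁻¹) ^ q = 1 := by rw [inv_pow, hz, inv_one]
      have e6 : (ω ^ i)⁻¹ - 1 ≠ 0 := by
        intro h0
        have h3 : (ω ^ i)⁻¹ = 1 := sub_eq_zero.1 h0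
        rw [inv_eq_one] at h3
        exact hω.pow_ne_one_of_pos_of_lt hi0 hi h3
      rw [e5, sub_self] at e4
      rw [e3, (mul_eq_zero.1 e4).resolve_left e6, zero_smul]
    rw [e1, Finset.sum_eq_single_of_mem 0 (Finset.mem_range.2 (Nat.pos_of_ne_zero hq0)) e2]
    have hqc : (q : ℂ) ≠ 0 := by exact_mod_cast hq0
    simp only [pow_zero, Finset.sum_const, Finset.card_range, nsmul_eq_mul, mul_one]
    rw [smul_smul, inv_mul_cancel₀ hqc, one_smul]
    rfl
  rw [hsum, sum_inner]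
  refine Finset.sum_eq_zero fun j _ => ?_
  exact hv (ω ^ j) ⟨k, by rw [← hq]; exact hz j⟩ (w j) (hAw j)

end Pool.Agent.H255.BT.B_qreg
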