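import Pool.Agent.H255.BT.Nn

set_option autoImplicit false

open scoped InnerProductSpace

namespace Pool.Agent.H255.BT.B_rel

open Pool.Agent.H255.BT

variable {H : Type} [NormedAddCommGroup H] [InnerProductSpace ℂ H] [CompleteSpace H]

theorem eq_of_eig {Z : Set ℂ} {A : H →L[ℂ] H} (hA : PP Z A) (P Q : H →L[ℂ] H)
    (h : ∀ ζ ∈ Z, ∀ w : H, A w = ζ • w → P w = Q w) : P = Q := by
  have key : ∀ y, (star (P - Q)) y = 0 := by
    intro y
    refine hA.tot _ fun ζ hζ w hw => ?_
    rw [ContinuousLinearMap.star_eq_adjoint, ContinuousLinearMap.adjoint_inner_right,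
      ContinuousLinearMap.sub_apply, h ζ hζ w hw, sub_self, inner_zero_left]
  have h1 : star (P - Q) = 0 := by
    ext y
    exact key y
  exact sub_eq_zero.mp (star_eq_zero.mp h1)

theorem r : S_rel := by
  intro H _ _ _ m n hm hn A hA θ F hT B hB T hT1 hT2 hrel
  have norm1 : ∀ ζ ∈ mu m n, ‖ζ‖ = 1 := by
    rintro ζ ⟨k, hk⟩
    exact Complex.norm_eq_one_of_pow_eq_one hk (NN_pos hm hn k).ne'
  have hin : ∀ η ∈ mu m n, ∀ u : H, A u = η • u → ∀ x, ⟪u, A x⟫_ℂ = η * ⟪u, x⟫_ℂ := by
    intro η hη u hu x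
    have h1 := norm1 η hη
    have hη0 : η ≠ 0 := by
      intro h
      rw [h, norm_zero] at h1
      exact zero_ne_one h1
    have h2 : (star A) u = η⁻¹ • u := by
      have h3 : (star A * A) u = u := by
        rw [hA.iso]
        rfl
      have h4 : η • (star A) u = u := by
        have h5 : (star A * A) u = (star A) (A u) := rfl
        rw [h5, hu, map_smul] at h3
        exact h3
      have h5 := congrArg (fun z : H => η⁻¹ • z) h4
      simp only [smul_smul, inv_mul_cancel₀ hη0, one_smul] at h5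
      exact h5
    rw [← ContinuousLinearMap.adjoint_inner_left, ← ContinuousLinearMap.star_eq_adjoint, h2,
      inner_smul_left, Complex.inv_eq_conj h1, Complex.conj_conj]
  have hinp : ∀ η ∈ mu m n, ∀ u : H, A u = η • u → ∀ (k : ℕ) (x : H),
      ⟪u, (A ^ k) x⟫_ℂ = η ^ k * ⟪u, x⟫_ℂ := by
    intro η hη u hu k
    induction k with
    | zero =>
      intro x
      rw [pow_zero, pow_zero, one_mul]
      rfl
    | succ k ih =>
      intro x
      have h1 : (A ^ (k + 1)) x = (A ^ k) (A x) := by
        rw [pow_succ]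
        rfl
      rw [h1, ih (A x), hin η hη u hu x, pow_succ]
      ring
  have key : ∀ (c : ℂ) (w : H), (A ^ m) w = c • w → B (-(m : ℤ)) w = F c • w := by
    intro c w hw
    rw [← sub_eq_zero]
    refine hA.tot _ fun η hη u hu => ?_
    rw [inner_sub_right, inner_smul_right]
    have h1 : ⟪u, B (-(m : ℤ)) w⟫_ℂ = (starRingEnd ℂ) (θ η ^ m) * ⟪u, w⟫_ℂ := by
      rw [← ContinuousLinearMap.adjoint_inner_left, ← ContinuousLinearMap.star_eq_adjoint,
        hB.star_eq, neg_neg, hB.eig η hη u hu, zpow_natCast, inner_smul_left]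
    have h2 : c * ⟪u, w⟫_ℂ = η ^ m * ⟪u, w⟫_ℂ := by
      have h3 := hinp η hη u hu m w
      rw [hw, inner_smul_right] at h3
      exact h3
    rcases eq_or_ne ⟪u, w⟫_ℂ 0 with h0 | h0
    · rw [h1, h0, mul_zero, mul_zero, sub_zero]
    · have h3 : c = η ^ m := mul_right_cancel₀ h0 h2
      have h4 : (starRingEnd ℂ) (θ η ^ m) * θ η ^ m = 1 := by
        rw [Complex.conj_mul', norm_pow, hT.norm η hη]
        norm_num
      have h5 : (starRingEnd ℂ) (θ η ^ m) = F (η ^ m) := by
        calc (starRingEnd ℂ) (θ η ^ m) = (starRingEnd ℂ) (θ η ^ m) * (θ η ^ m * F (η ^ m)) := by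
              rw [hT.powm η hη, mul_one]
          _ = ((starRingEnd ℂ) (θ η ^ m) * θ η ^ m) * F (η ^ m) := by ring
          _ = F (η ^ m) := by rw [h4, one_mul]
      rw [h1, h3, h5, sub_self]
  have hAst : A ^ m * star T = star T * A ^ n := by
    calc A ^ m * star T = (star T * T) * A ^ m * star T := by rw [hT1, one_mul]
      _ = star T * (T * A ^ m) * star T := by simp only [mul_assoc]
      _ = star T * (A ^ n * T) * star T := by rw [hrel]
      _ = star T * A ^ n * (T * star T) := by simp only [mul_assoc]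
      _ = star T * A ^ n := by rw [hT2, mul_one]
  have main : T * B (-(m : ℤ)) * star T = B (n : ℤ) := by
    refine eq_of_eig hA _ _ fun ζ hζ v hv => ?_
    have hpow : ∀ k : ℕ, (A ^ k) v = ζ ^ k • v := by
      intro k
      induction k with
      | zero =>
        rw [pow_zero, pow_zero, one_smul]
        rfl
      | succ k ih =>
        have h1 : (A ^ (k + 1)) v = (A ^ k) (A v) := by
          rw [pow_succ]
          rfl
        rw [h1, hv, map_smul, ih, smul_smul, pow_succ, mul_comm]
    have hw : (A ^ m) ((star T) v) = ζ ^ n • (star T) v := by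
      have h1 : (A ^ m * star T) v = (star T * A ^ n) v := by rw [hAst]
      have h2 : (A ^ m * star T) v = (A ^ m) ((star T) v) := rfl
      have h3 : (star T * A ^ n) v = (star T) ((A ^ n) v) := rfl
      rw [h2, h3, hpow, map_smul] at h1
      exact h1
    have h1 : (T * B (-(m : ℤ)) * star T) v = T (B (-(m : ℤ)) ((star T) v)) := rfl
    have h2 : T ((star T) v) = v := by
      have h3 : (T * star T) v = T ((star T) v) := rfl
      rw [← h3, hT2]
      rfl
    rw [h1, key _ _ hw, map_smul, h2, hB.eig ζ hζ v hv, zpow_natCast, hT.pown ζ hζ]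
  calc T * B (-(m : ℤ)) = T * B (-(m : ℤ)) * (star T * T) := by rw [hT1, mul_one]
    _ = (T * B (-(m : ℤ)) * star T) * T := by simp only [mul_assoc]
    _ = B (n : ℤ) * T := by rw [main]

end Pool.Agent.H255.BT.B_rel
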