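import Pool.Agent.H255.BT.Defs

/-!
From the unitary to the von Neumann algebras (helper224 for helper255).
-/

set_option autoImplicit false

open scoped InnerProductSpace

namespace Pool.Agent.H255.BT.B_vn

open Pool.Agent.H255.BT

variable {Γ : Type} [Group Γ]

theorem inner_dl {ι : Type} (x : ι) (f : L2 ι) : ⟪dl x, f⟫_ℂ = f x := by
  classical
  unfold dl
  rw [lp.inner_single_left]
  simp

open Classical in
theorem dl_apply {ι : Type} (x y : ι) : (dl x : L2 ι) y = if y = x then 1 else 0 := by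
  unfold dl
  rw [lp.coeFn_single]
  by_cases h : y = x
  · subst h
    simp
  · simp [h]

/-- the operators of the quasi-regular representation -/
def QR (Λ : Subgroup Γ) : Set (L2 (Γ ⧸ Λ) →L[ℂ] L2 (Γ ⧸ Λ)) :=
  {S | ∃ g : Γ, ∀ x : Γ ⧸ Λ, S (dl x) = dl (g • x)}

theorem star_QR {Λ : Subgroup Γ} {S : L2 (Γ ⧸ Λ) →L[ℂ] L2 (Γ ⧸ Λ)} (hS : S ∈ QR Λ) :
    star S ∈ QR Λ := by
  classical
  obtain ⟨g, hg⟩ := hS
  refine ⟨g⁻¹, fun x => ?_⟩
  ext y
  rw [← inner_dl, ContinuousLinearMap.star_eq_adjoint, ContinuousLinearMap.adjoint_inner_right, hg,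
    inner_dl, dl_apply, dl_apply]
  congr 1
  rw [eq_inv_smul_iff]

theorem mem_Hecke {Λ : Subgroup Γ} {T : L2 (Γ ⧸ Λ) →L[ℂ] L2 (Γ ⧸ Λ)} :
    T ∈ Hecke Λ ↔ ∀ S ∈ QR Λ, S * T = T * S := by
  constructor
  · rintro h S ⟨g, hg⟩
    exact (h g S hg).symm
  · intro h g S hS
    exact (h S ⟨g, hS⟩).symm

/-- the Hecke von Neumann algebra -/
noncomputable def vn (Λ : Subgroup Γ) : VonNeumannAlgebra (L2 (Γ ⧸ Λ)) :=
  { StarSubalgebra.centralizer ℂ (QR Λ) with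
    centralizer_centralizer' := by
      show Set.centralizer (Set.centralizer (StarSubalgebra.centralizer ℂ (QR Λ) :
        Set (L2 (Γ ⧸ Λ) →L[ℂ] L2 (Γ ⧸ Λ)))) = (StarSubalgebra.centralizer ℂ (QR Λ) :
        Set (L2 (Γ ⧸ Λ) →L[ℂ] L2 (Γ ⧸ Λ)))
      rw [StarSubalgebra.coe_centralizer]
      exact Set.centralizer_centralizer_centralizer _ }

theorem mem_vn {Λ : Subgroup Γ} {T : L2 (Γ ⧸ Λ) →L[ℂ] L2 (Γ ⧸ Λ)} :
    T ∈ vn Λ ↔ T ∈ Hecke Λ := by
  rw [mem_Hecke]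
  have h1 : T ∈ vn Λ ↔ T ∈ StarSubalgebra.centralizer ℂ (QR Λ) := Iff.rfl
  rw [h1, StarSubalgebra.mem_centralizer_iff]
  constructor
  · intro h S hS
    exact (h S hS).1
  · intro h S hS
    exact ⟨h S hS, h _ (star_QR hS)⟩

theorem r : S_vn := by
  intro Γ Γ' _ _ Λ Λ' V hV
  refine ⟨vn Λ, vn Λ', fun T => mem_vn, fun T => mem_vn, ?_⟩
  have h1 : ∀ T, T ∈ vn Λ → V.conjStarAlgEquiv T ∈ vn Λ' := fun T hT =>
    mem_vn.2 ((hV T).1 (mem_vn.1 hT))
  have h2 : ∀ T, T ∈ vn Λ' → V.conjStarAlgEquiv.symm T ∈ vn Λ := fun T hT => by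
    refine mem_vn.2 ((hV _).2 ?_)
    rw [StarAlgEquiv.apply_symm_apply]
    exact mem_vn.1 hT
  exact ⟨{
    toFun := fun T => ⟨V.conjStarAlgEquiv T.1, h1 T.1 T.2⟩
    invFun := fun T => ⟨V.conjStarAlgEquiv.symm T.1, h2 T.1 T.2⟩
    left_inv := fun T => Subtype.ext (StarAlgEquiv.symm_apply_apply _ _)
    right_inv := fun T => Subtype.ext (StarAlgEquiv.apply_symm_apply _ _)
    map_mul' := fun S T => Subtype.ext (map_mul V.conjStarAlgEquiv S.1 T.1)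
    map_add' := fun S T => Subtype.ext (map_add V.conjStarAlgEquiv S.1 T.1)
    map_star' := fun S => Subtype.ext (map_star V.conjStarAlgEquiv S.1)
    map_smul' := fun c S => Subtype.ext (map_smul V.conjStarAlgEquiv c S.1) }⟩

end Pool.Agent.H255.BT.B_vn
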