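import Mathlib

/-!
Hecke von Neumann algebras of Baumslag–Solitar Hecke pairs: the definitions used in the statement
(helper255).
-/

set_option autoImplicit false

namespace Pool.Agent.H255.BT

noncomputable section

/-- the relator of `BS(m,n)`: `t a^m t^{-1} a^{-n}` (`a` is the generator `false`, `t` the
generator `true`) -/
def rels (m n : ℤ) : Set (FreeGroup Bool) :=
  {FreeGroup.of true * FreeGroup.of false ^ m * (FreeGroup.of true)⁻¹ * (FreeGroup.of false ^ n)⁻¹}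

/-- the Baumslag–Solitar group `BS(m,n) = ⟨a, t | t a^m t^{-1} = a^n⟩` -/
abbrev BSG (m n : ℤ) : Type := PresentedGroup (rels m n)

/-- the generator `a` -/
def ga (m n : ℤ) : BSG m n := PresentedGroup.of false

/-- the generator `t` -/
def gt (m n : ℤ) : BSG m n := PresentedGroup.of true

/-- the Hilbert space `ℓ²(ι)` -/
abbrev L2 (ι : Type) : Type := lp (fun _ : ι => ℂ) 2

/-- the basis vector `δ_x` of `ℓ²(ι)` -/
def dl {ι : Type} (x : ι) : L2 ι := by classical exact lp.single 2 x (1 : ℂ)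

/-- `T = V S V⁻¹` -/
def Conj {H K : Type} [NormedAddCommGroup H] [InnerProductSpace ℂ H]
    [NormedAddCommGroup K] [InnerProductSpace ℂ K]
    (V : H ≃ₗᵢ[ℂ] K) (S : H →L[ℂ] H) (T : K →L[ℂ] K) : Prop :=
  ∀ x : H, T (V x) = V (S x)

/-- the von Neumann algebras `L` and `M` are spatially isomorphic: `V L V⁻¹ = M` for a unitary
`V : H → K` -/
def SpIso {H K : Type} [NormedAddCommGroup H] [InnerProductSpace ℂ H] [CompleteSpace H]
    [NormedAddCommGroup K] [InnerProductSpace ℂ K] [CompleteSpace K]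
    (L : VonNeumannAlgebra H) (M : VonNeumannAlgebra K) : Prop :=
  ∃ V : H ≃ₗᵢ[ℂ] K, ∀ (S : H →L[ℂ] H) (T : K →L[ℂ] K), Conj V S T → (S ∈ L ↔ T ∈ M)

/-- `L` is the commutant of the representation of `Γ` on `H` which permutes the vectors `e x` as
`Γ` acts on `X`: an operator `T` is in `L` if and only if it commutes, for every `g`, with the
bounded operator `S` with `S (e x) = e (g • x)` -/
def IsComm {H : Type} [NormedAddCommGroup H] [InnerProductSpace ℂ H] [CompleteSpace H]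
    (Γ : Type) {X : Type} [SMul Γ X] (e : X → H) (L : VonNeumannAlgebra H) : Prop :=
  ∀ T : H →L[ℂ] H, T ∈ L ↔
    ∀ (g : Γ) (S : H →L[ℂ] H), (∀ x, S (e x) = e (g • x)) → T ∘L S = S ∘L T

/-- the Hecke von Neumann algebras of `(Γ,Λ)` and `(Γ',Λ')`, that is, the commutants `L`, `L'` of
the quasi-regular representations on `ℓ²(Γ/Λ)`, `ℓ²(Γ'/Λ')`, are (spatially) isomorphic -/
def HeckeIso {Γ Γ' : Type} [Group Γ] [Group Γ'] (Λ : Subgroup Γ) (Λ' : Subgroup Γ') : Prop :=
  ∃ (L : VonNeumannAlgebra (L2 (Γ ⧸ Λ))) (L' : VonNeumannAlgebra (L2 (Γ' ⧸ Λ'))),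
    IsComm Γ (dl : Γ ⧸ Λ → L2 (Γ ⧸ Λ)) L ∧ IsComm Γ' (dl : Γ' ⧸ Λ' → L2 (Γ' ⧸ Λ')) L' ∧
    SpIso L L'

end

end Pool.Agent.H255.BT
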