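import Pool.Agent.H255.BT.Defs

/-! Isomorphism of Hecke von Neumann algebras: the definitions used in the statement
(helper255). -/

set_option autoImplicit false

namespace Pool.Agent.H255.BT

theorem heckeIso_of {Γ Γ' : Type} [Group Γ] [Group Γ'] (Λ : Subgroup Γ) (Λ' : Subgroup Γ')
    (V : L2 (Γ ⧸ Λ) ≃ₗᵢ[ℂ] L2 (Γ' ⧸ Λ'))
    (hV : ∀ T : L2 (Γ ⧸ Λ) →L[ℂ] L2 (Γ ⧸ Λ), T ∈ Hecke Λ ↔ V.conjStarAlgEquiv T ∈ Hecke Λ')
    (h : ∃ (L : VonNeumannAlgebra (L2 (Γ ⧸ Λ))) (L' : VonNeumannAlgebra (L2 (Γ' ⧸ Λ'))),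
      (∀ T, T ∈ L ↔ T ∈ Hecke Λ) ∧ (∀ T, T ∈ L' ↔ T ∈ Hecke Λ') ∧
      Nonempty (L.toStarSubalgebra ≃⋆ₐ[ℂ] L'.toStarSubalgebra)) : HeckeIso Λ Λ' := by
  obtain ⟨L, L', h1, h2, -⟩ := h
  refine ⟨L, L', h1, h2, V, fun S T hST => ?_⟩
  have e : V.conjStarAlgEquiv S = T := by
    refine ContinuousLinearMap.ext fun y => ?_
    have h3 : V.conjStarAlgEquiv S y = V (S (V.symm y)) := rfl
    rw [h3, ← hST (V.symm y), LinearIsometryEquiv.apply_symm_apply]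
  rw [h1, h2, hV, e]

theorem heckeIso_symm {Γ Γ' : Type} [Group Γ] [Group Γ'] {Λ : Subgroup Γ} {Λ' : Subgroup Γ'}
    (h : HeckeIso Λ Λ') : HeckeIso Λ' Λ := by
  obtain ⟨L, L', h1, h2, V, hV⟩ := h
  refine ⟨L', L, h2, h1, V.symm, fun S T hST => (hV T S fun x => ?_).symm⟩
  have h3 := hST (V x)
  rw [LinearIsometryEquiv.symm_apply_apply] at h3
  rw [h3, LinearIsometryEquiv.apply_symm_apply]

end Pool.Agent.H255.BT
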