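import Pool.Agent.H255.BT.Defs

/-! Facts on `NN` (helper255). -/

set_option autoImplicit false

namespace Pool.Agent.H255.BT

theorem NN_pos {m n : ℕ} (hm : 0 < m) (hn : 0 < n) (k : ℕ) : 0 < NN m n k := by
  have h0 : 0 < m.gcd n := Nat.gcd_pos_of_pos_left n hm
  have h1 : 0 < m / m.gcd n := Nat.div_pos (Nat.le_of_dvd hm (Nat.gcd_dvd_left m n)) h0
  have h2 : 0 < n / m.gcd n := Nat.div_pos (Nat.le_of_dvd hn (Nat.gcd_dvd_right m n)) h0
  unfold NN
  positivity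

theorem dvd_NN_left (m n : ℕ) {k : ℕ} (hk : 1 ≤ k) : m ∣ NN m n k := by
  unfold NN
  conv_lhs => rw [← Nat.mul_div_cancel' (Nat.gcd_dvd_left m n)]
  exact Nat.mul_dvd_mul_left _ ((dvd_mul_right _ _).trans (dvd_pow_self _ (by omega)))

theorem dvd_NN_right (m n : ℕ) {k : ℕ} (hk : 1 ≤ k) : n ∣ NN m n k := by
  unfold NN
  conv_lhs => rw [← Nat.mul_div_cancel' (Nat.gcd_dvd_right m n)]
  exact Nat.mul_dvd_mul_left _ ((dvd_mul_left _ _).trans (dvd_pow_self _ (by omega)))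

end Pool.Agent.H255.BT
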